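import Pool.Agent.H91.FP.Malcev

set_option autoImplicit false

namespace Pool.Agent.Results.MP_dfe55f_al.LocallyFreeByCyclic

universe u

open Pool.Agent.H91.FP

theorem main {G : Type u} [Group G] [Group.FG G] (K : Subgroup G) [K.Normal]
    (hfree : ∀ B : Subgroup G, B ≤ K → B.FG → IsFreeGroup B) (θ : G)
    (hH : (K ⊔ Subgroup.zpowers θ).FG) (hc : commutator G ≤ K ⊔ Subgroup.zpowers θ)
    (g : G) (hg : g ≠ 1) : ∃ N : Subgroup G, N.Normal ∧ N.index ≠ 0 ∧ g ∉ N := by
  have hHfg : Group.FG (K ⊔ Subgroup.zpowers θ : Subgroup G) :=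
    (Group.fg_iff_subgroup_fg _).2 hH
  have hθ : θ ∈ K ⊔ Subgroup.zpowers θ :=
    Subgroup.mem_sup_right (Subgroup.mem_zpowers θ)
  have h1 : Group.ResiduallyFinite (K ⊔ Subgroup.zpowers θ : Subgroup G) := by
    refine resFin_cyclic (K.subgroupOf (K ⊔ Subgroup.zpowers θ)) ?_ ⟨θ, hθ⟩ ?_
    · intro B hB hBfg
      have h2 : B.map (K ⊔ Subgroup.zpowers θ).subtype ≤ K := by
        rintro _ ⟨x, hx, rfl⟩
        exact hB hx
      have h3 : (B.map (K ⊔ Subgroup.zpowers θ).subtype).FG := by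
        obtain ⟨S, hS⟩ := hBfg
        classical
        refine ⟨S.image (K ⊔ Subgroup.zpowers θ).subtype, ?_⟩
        rw [← hS, MonoidHom.map_closure, Finset.coe_image]
      have h4 := hfree _ h2 h3
      exact IsFreeGroup.ofMulEquiv (B.equivMapOfInjective _
        (K ⊔ Subgroup.zpowers θ).subtype_injective).symm
    · rw [eq_top_iff]
      rintro ⟨x, hx⟩ -
      rw [Subgroup.mem_sup_of_normal_left] at hx
      obtain ⟨y, hy, z, ⟨j, rfl⟩, rfl⟩ := hx
      have hyH : y ∈ K ⊔ Subgroup.zpowers θ := Subgroup.mem_sup_left hy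
      have h5 : (⟨y * θ ^ j, hx⟩ : (K ⊔ Subgroup.zpowers θ : Subgroup G)) =
          ⟨y, hyH⟩ * ⟨θ, hθ⟩ ^ j := by
        apply Subtype.ext
        rfl
      rw [h5]
      exact Subgroup.mul_mem_sup hy ⟨j, rfl⟩
  have h2 : Group.ResiduallyFinite G := resFin_abelian (K ⊔ Subgroup.zpowers θ) h1 hc
  obtain ⟨N, hN⟩ := Group.exists_finiteIndexNormalSubgroup_notMem g hg
  exact ⟨N.toSubgroup, N.isNormal', N.isFiniteIndex'.index_ne_zero, hN⟩

/-- **Theorem.** Let `G` be a finitely generated group with a locally free normal subgroup `K`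
and an element `θ` such that `K ⟨θ⟩` contains the commutator subgroup and is finitely generated or
of finite index.  Then `G` is residually finite. -/
theorem result (G : Type u) [Group G] [Group.FG G] (K : Subgroup G) [K.Normal]
    (hfree : ∀ B : Subgroup G, B ≤ K → B.FG → IsFreeGroup B) (θ : G)
    (hH : (K ⊔ Subgroup.zpowers θ).FG ∨ (K ⊔ Subgroup.zpowers θ).index ≠ 0)
    (hc : commutator G ≤ K ⊔ Subgroup.zpowers θ) :
    ∀ g : G, g ≠ 1 → ∃ N : Subgroup G, N.Normal ∧ N.index ≠ 0 ∧ g ∉ N := by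
  refine main K hfree θ ?_ hc
  rcases hH with hH | hH
  · exact hH
  · have hfi : (K ⊔ Subgroup.zpowers θ).FiniteIndex := ⟨hH⟩
    exact (Group.fg_iff_subgroup_fg _).1 (Subgroup.fg_of_index_ne_zero _)

end Pool.Agent.Results.MP_dfe55f_al.LocallyFreeByCyclic
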