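import Pool.Agent.H91.ResFinMain

set_option autoImplicit false

namespace Pool.Agent.Results.MP_dfe55f_al.ResiduallyFiniteNilpotent

open scoped commutatorElement

/-- **Theorem.** Let `G` be a finitely generated group and `H` a subgroup of finite index whose
commutator subgroup `[H, H]` is locally free and residually (finite nilpotent), i.e. every
nontrivial element of `[H, H]` lies outside some normal subgroup `K` of `[H, H]` of finite index
with nilpotent quotient.  Then `G` is residually finite. -/
theorem result (G : Type*) [Group G] [Group.FG G] (H : Subgroup G) [H.FiniteIndex]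
    (hfree : ∀ B : Subgroup G, B ≤ ⁅H, H⁆ → B.FG → IsFreeGroup B)
    (hres : ∀ g : (⁅H, H⁆ : Subgroup G), g ≠ 1 →
      ∃ (K : Subgroup (⁅H, H⁆ : Subgroup G)) (_ : K.Normal),
        K.FiniteIndex ∧ Group.IsNilpotent ((⁅H, H⁆ : Subgroup G) ⧸ K) ∧ g ∉ K) :
    Group.ResiduallyFinite G := by
  rw [Group.residuallyFinite_iff_exists_finiteIndex]
  intro g hg
  refine Pool.Agent.H91.exists_finiteIndex_of_subgroup H g fun hgH => ?_
  let e : commutator H ≃* (⁅H, H⁆ : Subgroup G) :=
    ((commutator H).equivMapOfInjective H.subtype H.subtype_injective).trans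
      (MulEquiv.subgroupCongr (Subgroup.map_subtype_commutator H))
  have he : ∀ x : commutator H, ((e x : (⁅H, H⁆ : Subgroup G)) : G) = ((x : H) : G) := fun x => rfl
  refine Pool.Agent.H91.exists_finiteIndex_main ?_ ?_ ⟨g, hgH⟩ (fun h => hg (congrArg Subtype.val h))
  · intro B hB
    let j : commutator H →* G := H.subtype.comp (commutator H).subtype
    have hj : Function.Injective j := H.subtype_injective.comp (commutator H).subtype_injective
    have h1 : B.map j ≤ ⁅H, H⁆ := by
      rintro _ ⟨x, -, rfl⟩
      exact (e x).2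
    have h3 : (B.map j).FG := by
      obtain ⟨S, hS⟩ := hB
      classical
      refine ⟨S.image j, ?_⟩
      rw [← hS, MonoidHom.map_closure, Finset.coe_image]
    have h2 : IsFreeGroup (B.map j) := hfree _ h1 h3
    exact IsFreeGroup.ofMulEquiv (B.equivMapOfInjective j hj).symm
  · intro x hx
    obtain ⟨K, hK, hKf, hKn, hxK⟩ := hres (e x) (fun h => hx (by
      rw [← e.symm_apply_apply x, h, map_one]))
    refine ⟨_ ⧸ K, inferInstance, inferInstance, hKn, (QuotientGroup.mk' K).comp e.toMonoidHom, ?_⟩
    intro h
    exact hxK ((QuotientGroup.eq_one_iff (e x)).1 h)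

end Pool.Agent.Results.MP_dfe55f_al.ResiduallyFiniteNilpotent
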